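import Mathlib
import Pool.Agent.H480R2.RS.Param
import Pool.Agent.H480R2.RS.GR

set_option autoImplicit false

/-!
Graphs in which every edge lies in exactly one triangle:
`f(n) ≥ 3 n² exp(-2 √(ln(4/3) ln n) - 11 (ln n)^(1/4))` for all large `n`.
-/

namespace Pool.Agent.Results.MP_8535cc_co.UniqueTriangleLower

open Pool.Agent.H480R2.RS

theorem result : ∃ n₀ : ℕ, ∀ n : ℕ, n₀ ≤ n →
    3 * (n : ℝ) ^ 2 * Real.exp (-(2 * √(Real.log (4 / 3) * Real.log n)) -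
      11 * (Real.log n) ^ ((1 : ℝ) / 4)) ≤ (fUT n : ℝ) := by
  obtain ⟨n₀, h⟩ := param
  refine ⟨n₀, fun n hn => ?_⟩
  obtain ⟨D, R, K, h1, h2⟩ := h n hn
  have h3 := fUT_ge (K := K) h1
  calc _ = 3 * ((n : ℝ) ^ 2 * Real.exp (-(2 * √(Real.log (4 / 3) * Real.log n)) -
      11 * (Real.log n) ^ ((1 : ℝ) / 4))) := by ring
    _ ≤ 3 * ((pairsK D R K).card : ℝ) := by linarith
    _ = ((3 * (pairsK D R K).card : ℕ) : ℝ) := by push_cast; ring
    _ ≤ (fUT n : ℝ) := Nat.cast_le.2 h3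

end Pool.Agent.Results.MP_8535cc_co.UniqueTriangleLower
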